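import Pool.Agent.H439R2.MC.Main

set_option autoImplicit false

namespace Pool.Agent.H377R3.JB

open Pool.Agent.H439R2.MC

/-- the least value of `∑ ⌊n_i²/4⌋` over lists with `∑ C(n_i,2) ≥ m`. -/
noncomputable def FF (m : ℕ) : ℕ :=
  sInf {c | ∃ L : List ℕ, m ≤ (L.map (fun n => n * (n - 1) / 2)).sum ∧
    c = (L.map (fun n => n ^ 2 / 4)).sum}

theorem FF_le {m : ℕ} (L : List ℕ) (h : m ≤ (L.map (fun n => n * (n - 1) / 2)).sum) :
    FF m ≤ (L.map (fun n => n ^ 2 / 4)).sum := Nat.sInf_le ⟨L, h, rfl⟩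

theorem FF_spec (m : ℕ) : ∃ L : List ℕ, m ≤ (L.map (fun n => n * (n - 1) / 2)).sum ∧
    FF m = (L.map (fun n => n ^ 2 / 4)).sum := by
  have hne : {c | ∃ L : List ℕ, m ≤ (L.map (fun n => n * (n - 1) / 2)).sum ∧
    c = (L.map (fun n => n ^ 2 / 4)).sum}.Nonempty := by
    refine ⟨_, List.replicate m 2, ?_, rfl⟩
    simp
  exact Nat.sInf_mem hne

theorem FF_zero : FF 0 = 0 := by
  have := FF_le (m := 0) [] (by simp)
  simpa using this

theorem FF_P (m n k : ℕ) (h : 2 * m ≤ n * (n - 1) + 2 * k) : FF m ≤ n ^ 2 / 4 + FF k := by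
  obtain ⟨L, hL, hF⟩ := FF_spec k
  rw [hF]
  have := FF_le (m := m) (n :: L) (by
    rw [List.map_cons, List.sum_cons]
    have := even_tri n
    omega)
  simpa using this

theorem two_quarter (n : ℕ) : 2 * (n ^ 2 / 4) = n * (n - 1) / 2 + n / 2 := by
  rcases Nat.even_or_odd' n with ⟨q, rfl | rfl⟩
  · have e1 : (2 * q) ^ 2 / 4 = q ^ 2 := by
      have : (2 * q) ^ 2 = 4 * q ^ 2 := by ring
      rw [this]; simp
    have e2 : 2 * q * (2 * q - 1) / 2 = q * (2 * q - 1) := by
      have : 2 * q * (2 * q - 1) = 2 * (q * (2 * q - 1)) := by ring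
      rw [this]; simp
    rw [e1, e2]
    have e3 : 2 * q / 2 = q := by omega
    rw [e3]
    rcases Nat.eq_zero_or_pos q with h | h
    · subst h; simp
    · obtain ⟨t, rfl⟩ : ∃ t, q = t + 1 := ⟨q - 1, by omega⟩
      have : 2 * (t + 1) - 1 = 2 * t + 1 := by omega
      rw [this]; ring
  · have e1 : (2 * q + 1) ^ 2 / 4 = q ^ 2 + q := by
      have : (2 * q + 1) ^ 2 = 4 * (q ^ 2 + q) + 1 := by ring
      rw [this]; omega
    have e2 : (2 * q + 1) * (2 * q + 1 - 1) / 2 = (2 * q + 1) * q := by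
      have : (2 * q + 1) * (2 * q + 1 - 1) = 2 * ((2 * q + 1) * q) := by
        have : 2 * q + 1 - 1 = 2 * q := by omega
        rw [this]; ring
      rw [this]; simp
    rw [e1, e2]
    have e3 : (2 * q + 1) / 2 = q := by omega
    rw [e3]; ring

theorem tri_le (n : ℕ) : n * (n - 1) / 2 ≤ (n / 2) * (2 * (n / 2) + 1) := by
  have h4 := even_tri n
  have h7 : n * (n - 1) ≤ (2 * (n / 2) + 1) * (2 * (n / 2)) := by
    have : n ≤ 2 * (n / 2) + 1 := by omega
    have h8 : n - 1 ≤ 2 * (n / 2) := by omega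
    exact Nat.mul_le_mul this h8
  have h9 : (2 * (n / 2) + 1) * (2 * (n / 2)) = 2 * ((n / 2) * (2 * (n / 2) + 1)) := by ring
  omega

/-- structure of a list: `b` plays the role of the largest element. -/
theorem list_struct (L : List ℕ) : ∃ b t : ℕ,
    (L.map (fun n => n / 2)).sum = b / 2 + t ∧
    (L.map (fun n => n * (n - 1) / 2)).sum ≤
      (2 * (b / 2) + 1) * (L.map (fun n => n / 2)).sum ∧
    (L.map (fun n => n * (n - 1) / 2)).sum ≤ b * (b - 1) / 2 + t * (2 * t + 1) ∧
    b * (b - 1) / 2 ≤ (L.map (fun n => n * (n - 1) / 2)).sum := by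
  induction L with
  | nil => exact ⟨0, 0, by simp, by simp, by simp, by simp⟩
  | cons a L ih =>
    obtain ⟨b, t, h1, h2, h3, h4⟩ := ih
    rw [List.map_cons, List.sum_cons, List.map_cons, List.sum_cons]
    set M := (L.map (fun n => n * (n - 1) / 2)).sum with hM
    set u := (L.map (fun n => n / 2)).sum with hu
    have ha := tri_le a
    have hb := tri_le b
    rcases le_or_gt (a / 2) (b / 2) with hab | hab
    · refine ⟨b, t + a / 2, by omega, ?_, ?_, by omega⟩
      · have : (a / 2) * (2 * (a / 2) + 1) ≤ (2 * (b / 2) + 1) * (a / 2) := by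
          rw [Nat.mul_comm (2 * (b / 2) + 1)]
          exact Nat.mul_le_mul_left _ (by omega)
        rw [Nat.mul_add]
        omega
      · have : (t + a / 2) * (2 * (t + a / 2) + 1) ≥ t * (2 * t + 1) + (a / 2) * (2 * (a / 2) + 1) := by
          nlinarith [Nat.zero_le (t * (a / 2))]
        omega
    · refine ⟨a, u, by omega, ?_, ?_, by omega⟩
      · have h5 : (2 * (b / 2) + 1) * u ≤ (2 * (a / 2) + 1) * u :=
          Nat.mul_le_mul_right _ (by omega)
        rw [Nat.mul_add]
        have h6 : (a / 2) * (2 * (a / 2) + 1) = (2 * (a / 2) + 1) * (a / 2) := Nat.mul_comm _ _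
        omega
      · have h7 : (b / 2) * (2 * (b / 2) + 1) + t * (2 * t + 1) ≤ u * (2 * u + 1) := by
          rw [h1]
          nlinarith [Nat.zero_le (t * (b / 2))]
        omega

theorem sum_two (L : List ℕ) : 2 * (L.map (fun n => n ^ 2 / 4)).sum =
    (L.map (fun n => n * (n - 1) / 2)).sum + (L.map (fun n => n / 2)).sum := by
  induction L with
  | nil => simp
  | cons a L ih =>
    simp only [List.map_cons, List.sum_cons]
    have := two_quarter a
    omega

/-- With `n = 1600 g²`, `m = 2 n²` the clique-list function is at least `n² + n/2 + 8 g + 2`. -/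
theorem FF_bound (g n : ℕ) (hg : 1 ≤ g) (hn : n = 1600 * g ^ 2) :
    2 * n ^ 2 + n + 16 * g + 4 ≤ 2 * FF (2 * n ^ 2) := by
  obtain ⟨L, hL, hF⟩ := FF_spec (2 * n ^ 2)
  rw [hF, sum_two]
  obtain ⟨b, t, h1, h2, h3, h4⟩ := list_struct L
  set M := (L.map (fun n => n * (n - 1) / 2)).sum with hM
  set u := (L.map (fun n => n / 2)).sum with hu
  by_contra hcon
  push Not at hcon
  have hn1 : 1600 * g ≤ n := by rw [hn]; nlinarith
  have hu1 : u ≤ n + 16 * g + 3 := by omega
  have hM2 : M ≤ 2 * n ^ 2 + n + 16 * g + 3 - u := by omega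
  -- lower bound for `s = b / 2`
  set s := b / 2 with hs
  have hs1 : 2 * n ^ 2 ≤ (2 * s + 1) * (n + 16 * g + 3) :=
    hL.trans (h2.trans (Nat.mul_le_mul_left _ hu1))
  have hbb : b = 2 * s ∨ b = 2 * s + 1 := by omega
  have htri : ∀ k : ℕ, (2 * k) * (2 * k - 1) / 2 = k * (2 * k - 1) := by
    intro k
    have : 2 * k * (2 * k - 1) = 2 * (k * (2 * k - 1)) := by ring
    rw [this]; simp
  have htri2 : ∀ k : ℕ, (2 * k + 1) * (2 * k + 1 - 1) / 2 = (2 * k + 1) * k := by
    intro k
    have : (2 * k + 1) * (2 * k + 1 - 1) = 2 * ((2 * k + 1) * k) := by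
      have : 2 * k + 1 - 1 = 2 * k := by omega
      rw [this]; ring
    rw [this]; simp
  rcases lt_trichotomy s n with hsn | hsn | hsn
  · -- s = n - j, j ≥ 1
    obtain ⟨j, hj⟩ : ∃ j, n = s + j := ⟨n - s, by omega⟩
    have hj1 : 1 ≤ j := by omega
    have hj2 : j ≤ 16 * g + 3 := by
      by_contra h
      push Not at h
      have h5 : (2 * s + 1) ≤ 2 * n + 1 - 2 * (16 * g + 4) := by omega
      have h6 : (2 * s + 1) * (n + 16 * g + 3) ≤ (2 * n + 1 - 2 * (16 * g + 4)) * (n + 16 * g + 3) :=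
        Nat.mul_le_mul_right _ h5
      have h7 : 2 * n + 1 - 2 * (16 * g + 4) = 2 * (n - 16 * g - 4) + 1 := by omega
      obtain ⟨q, hq⟩ : ∃ q, n = q + 16 * g + 4 := ⟨n - 16 * g - 4, by omega⟩
      have h8 : n - 16 * g - 4 = q := by omega
      rw [h7, h8] at h6
      have h9 := hs1.trans h6
      rw [hq] at h9
      nlinarith
    have ht : t ≤ j + 16 * g + 3 := by omega
    have h10 : 2 * n ^ 2 ≤ s * (2 * s + 1) + t * (2 * t + 1) := by
      have := tri_le b
      rw [← hs] at this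
      omega
    have h11 : t * (2 * t + 1) ≤ (32 * g + 6) * (64 * g + 13) :=
      Nat.mul_le_mul (by omega) (by omega)
    have h12 : s * (2 * s + 1) + (32 * g + 6) * (64 * g + 13) < 2 * n ^ 2 := by
      have h13 : s ≤ n - 1 := by omega
      have h14 : s * (2 * s + 1) ≤ (n - 1) * (2 * (n - 1) + 1) :=
        Nat.mul_le_mul h13 (by omega)
      obtain ⟨q, hq⟩ : ∃ q, n = q + 1 := ⟨n - 1, by omega⟩
      have h15 : n - 1 = q := by omega
      rw [h15] at h14
      have h16 : 2 * n ^ 2 = q * (2 * q + 1) + (3 * q + 2) := by rw [hq]; ring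
      have h17 : (32 * g + 6) * (64 * g + 13) < 3 * q + 2 := by
        have : 3 * q + 2 = 3 * n - 1 := by omega
        rw [this, hn]
        have : (32 * g + 6) * (64 * g + 13) + 1 < 3 * (1600 * g ^ 2) := by nlinarith
        omega
      omega
    omega
  · -- s = n
    rcases hbb with hb | hb
    · have h5 : b * (b - 1) / 2 = n * (2 * n - 1) := by rw [hb, hsn, htri]
      have ht : t ≤ 16 * g + 3 := by omega
      have h6 : t * (2 * t + 1) ≤ (16 * g + 3) * (32 * g + 7) :=
        Nat.mul_le_mul ht (by omega)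
      have h7 : 2 * n ^ 2 = n * (2 * n - 1) + n := by
        obtain ⟨q, hq⟩ : ∃ q, n = q + 1 := ⟨n - 1, by omega⟩
        rw [hq]
        have : 2 * (q + 1) - 1 = 2 * q + 1 := by omega
        rw [this]; ring
      have h8 : (16 * g + 3) * (32 * g + 7) < n := by rw [hn]; nlinarith
      omega
    · have h5 : b * (b - 1) / 2 = (2 * n + 1) * n := by rw [hb, hsn, htri2]
      have h6 : (2 * n + 1) * n = 2 * n ^ 2 + n := by ring
      omega
  · -- s ≥ n + 1
    have h5 : (2 * n + 2) * (2 * n + 1) / 2 ≤ b * (b - 1) / 2 := by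
      apply Nat.div_le_div_right
      exact Nat.mul_le_mul (by omega) (by omega)
    have h6 : (2 * n + 2) * (2 * n + 1) / 2 = 2 * n ^ 2 + 3 * n + 1 := by
      have : (2 * n + 2) * (2 * n + 1) = 2 * (2 * n ^ 2 + 3 * n + 1) := by ring
      rw [this]; simp
    omega

end Pool.Agent.H377R3.JB
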