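import Pool.Agent.H377R3.JB.Arith

set_option autoImplicit false
set_option linter.unusedSectionVars false

namespace Pool.Agent.H377R3.JB

open Finset

variable {V : Type} [Fintype V] [DecidableEq V]

/-- weight from `v` to the set `A` -/
def dg (w : V → V → ℤ) (A : Finset V) (v : V) : ℤ := ∑ u ∈ A, w v u

/-- weight between two sets (ordered) -/
def ee (w : V → V → ℤ) (A B : Finset V) : ℤ := ∑ v ∈ A, dg w B v

theorem ee_comm {w : V → V → ℤ} (hs : ∀ u v, w u v = w v u) (A B : Finset V) :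
    ee w A B = ee w B A := by
  unfold ee dg
  rw [Finset.sum_comm]
  exact sum_congr rfl fun u _ => sum_congr rfl fun v _ => hs _ _

theorem dg_union {w : V → V → ℤ} {A B : Finset V} (h : Disjoint A B) (v : V) :
    dg w (A ∪ B) v = dg w A v + dg w B v := sum_union h

theorem ee_union_left {w : V → V → ℤ} {A B : Finset V} (h : Disjoint A B) (C : Finset V) :
    ee w (A ∪ B) C = ee w A C + ee w B C := sum_union h

theorem ee_union_right {w : V → V → ℤ} {A B : Finset V} (h : Disjoint A B) (C : Finset V) :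
    ee w C (A ∪ B) = ee w C A + ee w C B := by
  unfold ee
  rw [← sum_add_distrib]
  exact sum_congr rfl fun v _ => dg_union h v

theorem dg_nonneg {w : V → V → ℤ} (h0 : ∀ u v, 0 ≤ w u v) (A : Finset V) (v : V) :
    0 ≤ dg w A v := sum_nonneg fun _ _ => h0 _ _

theorem ee_nonneg {w : V → V → ℤ} (h0 : ∀ u v, 0 ≤ w u v) (A B : Finset V) :
    0 ≤ ee w A B := sum_nonneg fun _ _ => dg_nonneg h0 _ _

theorem dg_mono {w : V → V → ℤ} (h0 : ∀ u v, 0 ≤ w u v) {A B : Finset V} (h : A ⊆ B) (v : V) :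
    dg w A v ≤ dg w B v := sum_le_sum_of_subset_of_nonneg h fun _ _ _ => h0 _ _

theorem ee_mono_right {w : V → V → ℤ} (h0 : ∀ u v, 0 ≤ w u v) (A : Finset V) {B C : Finset V}
    (h : B ⊆ C) : ee w A B ≤ ee w A C := sum_le_sum fun v _ => dg_mono h0 h v

/-- total weight identity -/
theorem total {w : V → V → ℤ} (hs : ∀ u v, w u v = w v u) (A : Finset V) :
    ee w univ univ = ee w A A + ee w Aᶜ Aᶜ + 2 * ee w A Aᶜ := by
  have h : (univ : Finset V) = A ∪ Aᶜ := by rw [union_compl]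
  have hd : Disjoint A Aᶜ := disjoint_compl_right
  calc ee w univ univ = ee w (A ∪ Aᶜ) (A ∪ Aᶜ) := by rw [← h]
    _ = _ := by
      rw [ee_union_left hd, ee_union_right hd, ee_union_right hd, ee_comm hs Aᶜ A]
      ring

/-- moving a set `U ⊆ Aᶜ` into `A`: inner weight. -/
theorem inner_union {w : V → V → ℤ} (hs : ∀ u v, w u v = w v u) {A U : Finset V}
    (h : Disjoint A U) : ee w (A ∪ U) (A ∪ U) = ee w A A + 2 * ee w A U + ee w U U := by
  rw [ee_union_left h, ee_union_right h, ee_union_right h, ee_comm hs U A]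
  ring

theorem dg_erase {w : V → V → ℤ} (hz : ∀ u, w u u = 0) (A : Finset V) {v : V} (hv : v ∈ A) :
    dg w (A.erase v) v = dg w A v := by
  unfold dg
  rw [← add_sum_erase A _ hv, hz, zero_add]

theorem ee_erase_left {w : V → V → ℤ} (A B : Finset V) {v : V} (hv : v ∈ A) :
    ee w (A.erase v) B = ee w A B - dg w B v := by
  unfold ee
  rw [← add_sum_erase A _ hv]
  ring

theorem ee_self_erase {w : V → V → ℤ} (hs : ∀ u v, w u v = w v u) (hz : ∀ u, w u u = 0)
    (A : Finset V) {v : V} (hv : v ∈ A) :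
    ee w (A.erase v) (A.erase v) = ee w A A - 2 * dg w A v := by
  rw [ee_erase_left _ _ hv, dg_erase hz A hv, ee_comm hs A, ee_erase_left _ _ hv]
  ring

theorem dg_insert {w : V → V → ℤ} (A : Finset V) {u : V} (hu : u ∉ A) (v : V) :
    dg w (insert u A) v = dg w A v + w v u := by
  unfold dg
  rw [sum_insert hu]; ring

theorem ee_self_insert {w : V → V → ℤ} (hs : ∀ u v, w u v = w v u) (hz : ∀ u, w u u = 0)
    (A : Finset V) {v : V} (hv : v ∉ A) :
    ee w (insert v A) (insert v A) = ee w A A + 2 * dg w A v := by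
  have h := ee_self_erase hs hz (insert v A) (mem_insert_self v A)
  rw [erase_insert hv, dg_insert A hv, hz] at h
  linarith

theorem compl_erase' (A : Finset V) (v : V) : (A.erase v)ᶜ = insert v Aᶜ := by
  ext u
  simp only [mem_compl, mem_erase, mem_insert, not_and_or, not_not]

/-- inner weight of the complement after moving `v ∈ A` out. -/
theorem ee_compl_erase {w : V → V → ℤ} (hs : ∀ u v, w u v = w v u) (hz : ∀ u, w u u = 0)
    (A : Finset V) {v : V} (hv : v ∈ A) :
    ee w (A.erase v)ᶜ (A.erase v)ᶜ = ee w Aᶜ Aᶜ + 2 * dg w Aᶜ v := by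
  rw [compl_erase', ee_self_insert hs hz]
  rw [mem_compl, not_not]; exact hv

/-- cut after moving `v ∈ A` out. -/
theorem cut_erase {w : V → V → ℤ} (hs : ∀ u v, w u v = w v u) (hz : ∀ u, w u u = 0)
    (A : Finset V) {v : V} (hv : v ∈ A) :
    ee w (A.erase v) (A.erase v)ᶜ = ee w A Aᶜ - dg w Aᶜ v + dg w A v := by
  have h1 := total (w := w) hs A
  have h2 := total (w := w) hs (A.erase v)
  rw [ee_compl_erase hs hz A hv, ee_self_erase hs hz A hv] at h2
  linarith

/-- If `w ≤ 1` then the inner weight of `A` is at most `k (k-1)`, `k` the number of vertices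
of `A` with positive inner degree. -/
theorem inner_le {w : V → V → ℤ} (hs : ∀ u v, w u v = w v u) (hz : ∀ u, w u u = 0)
    (h0 : ∀ u v, 0 ≤ w u v) (h1 : ∀ u v, w u v ≤ 1) (A : Finset V) :
    ee w A A ≤ ((A.filter (fun v => 1 ≤ dg w A v)).card : ℤ) *
      ((A.filter (fun v => 1 ≤ dg w A v)).card - 1) := by
  set A1 := A.filter (fun v => 1 ≤ dg w A v) with hA1
  have e1 : ee w A A = ∑ v ∈ A1, dg w A v := by
    unfold ee
    rw [hA1, sum_filter]
    refine sum_congr rfl fun v _ => ?_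
    split_ifs with h
    · rfl
    · have := dg_nonneg h0 A v
      omega
  have e2 : ∀ v ∈ A1, dg w A v ≤ (A1.card : ℤ) - 1 := by
    intro v hv
    have hvA : v ∈ A := (mem_filter.1 hv).1
    have e3 : dg w A v ≤ ∑ u ∈ A1.erase v, (1 : ℤ) := by
      unfold dg
      have hsub : A1.erase v ⊆ A := (erase_subset _ _).trans (filter_subset _ _)
      rw [← sum_subset hsub]
      · exact sum_le_sum fun u _ => h1 _ _
      · intro u hu hnot
        rw [mem_erase, not_and_or, not_not] at hnot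
        rcases hnot with h | h
        · rw [h]; exact hz v
        · -- u has inner degree 0
          have h5 : dg w A u < 1 := by
            by_contra hc
            push Not at hc
            exact h (mem_filter.2 ⟨hu, hc⟩)
          have h6 : w v u ≤ dg w A u := by
            rw [hs v u]
            exact single_le_sum (f := fun z => w u z) (fun z _ => h0 u z) hvA
          have h7 := h0 v u
          omega
    rw [sum_const, card_erase_of_mem hv, nsmul_eq_mul, mul_one] at e3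
    have hpos : 1 ≤ A1.card := card_pos.2 ⟨v, hv⟩
    rw [Nat.cast_sub hpos] at e3
    simpa using e3
  rw [e1]
  calc ∑ v ∈ A1, dg w A v ≤ ∑ v ∈ A1, ((A1.card : ℤ) - 1) := sum_le_sum e2
    _ = _ := by rw [sum_const, nsmul_eq_mul]

set_option maxHeartbeats 1000000 in
/-- **Core.** `w` is the adjacency weight of a graph with `2 n²` edges (so ordered total `4 n²`),
`n` even, `n` large compared with `g`.  If every partition has a class of inner weight at least
`2T = n² + n/2 - 2g`, then the maximum cut is at most `n² + n/2 + 8g + 1`. -/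
theorem core (w : V → V → ℤ) (hs : ∀ u v, w u v = w v u) (hz : ∀ u, w u u = 0)
    (h0 : ∀ u v, 0 ≤ w u v) (h1 : ∀ u v, w u v ≤ 1) (n h g : ℤ) (hnh : n = 2 * h)
    (hg : 1 ≤ g) (hn : 100 * g ^ 2 ≤ n)
    (ht : ee w univ univ = 4 * n ^ 2)
    (hfail : ∀ S : Finset V, n ^ 2 + h - 2 * g ≤ ee w S S ∨ n ^ 2 + h - 2 * g ≤ ee w Sᶜ Sᶜ)
    (A0 : Finset V) (hmax : ∀ S : Finset V, ee w S Sᶜ ≤ ee w A0 A0ᶜ)
    (hbig : n ^ 2 + h ≤ ee w A0 A0ᶜ) :
    ee w A0 A0ᶜ ≤ n ^ 2 + h + 8 * g + 1 := by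
  -- WLOG A0 heavy
  wlog hA0 : n ^ 2 + h - 2 * g ≤ ee w A0 A0 generalizing A0 with H
  · have h2 := (hfail A0).resolve_left hA0
    have h3 : ee w A0ᶜ A0ᶜᶜ = ee w A0 A0ᶜ := by rw [compl_compl, ee_comm hs]
    have := H A0ᶜ (by rw [h3]; exact hmax) (by rw [h3]; exact hbig) h2
    rwa [h3] at this
  have hgn : 100 * g ≤ n := by nlinarith
  -- choose A
  have hne : (A0.powerset.filter
      (fun A => n ^ 2 + h - 2 * g ≤ ee w A A ∧ n ^ 2 + h ≤ ee w A Aᶜ)).Nonempty :=
    ⟨A0, by rw [mem_filter, mem_powerset]; exact ⟨Subset.refl _, hA0, hbig⟩⟩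
  obtain ⟨A, hA, hmin⟩ := exists_min_image _ (fun A => ee w A A) hne
  rw [mem_filter, mem_powerset] at hA
  obtain ⟨hAA0, hAT, hAc⟩ := hA
  set W := A0 \ A with hW
  set x := ee w A Aᶜ - (n ^ 2 + h) with hx
  set D := ee w A A - (n ^ 2 + h - 2 * g) with hD
  have hx0 : 0 ≤ x := by rw [hx]; linarith
  have hD0 : 0 ≤ D := by rw [hD]; linarith
  have htot := total (w := w) hs A
  rw [ht] at htot
  have hcA : ee w A Aᶜ = n ^ 2 + h + x := by rw [hx]; ring
  have hiA : ee w A A = n ^ 2 + h - 2 * g + D := by rw [hD]; ring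
  have hiAc : ee w Aᶜ Aᶜ = n ^ 2 - 3 * h - 2 * x + 2 * g - D := by linarith
  -- F1
  have hWdisj : Disjoint A W := disjoint_sdiff
  have hA0u : A0 = A ∪ W := by rw [hW, union_sdiff_of_subset hAA0]
  have hAcu : Aᶜ = A0ᶜ ∪ W := by
    ext u
    rw [hW, mem_union, mem_compl, mem_compl, mem_sdiff]
    constructor
    · intro hu
      by_cases hu0 : u ∈ A0
      · exact Or.inr ⟨hu0, hu⟩
      · exact Or.inl hu0
    · rintro (hu | ⟨_, hu⟩)
      · exact fun hc => hu (hAA0 hc)
      · exact hu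
  have hdisj2 : Disjoint A0ᶜ W := by
    rw [disjoint_left]
    intro u hu hu2
    exact (mem_compl.1 hu) (mem_sdiff.1 hu2).1
  have F1 : ∀ v ∈ A, 2 * dg w W v ≤ dg w Aᶜ v - dg w A v := by
    intro v hv
    have hv0 : v ∈ A0 := hAA0 hv
    have h2 := hmax (A0.erase v)
    rw [cut_erase hs hz A0 hv0] at h2
    have h3 : dg w A0 v = dg w A v + dg w W v := by
      conv_lhs => rw [hA0u]
      exact dg_union hWdisj v
    have h4 : dg w Aᶜ v = dg w A0ᶜ v + dg w W v := by
      rw [hAcu]; exact dg_union hdisj2 v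
    linarith
  have F1' : ∀ v ∈ A, 0 ≤ dg w Aᶜ v - dg w A v := fun v hv => by
    have := F1 v hv
    have := dg_nonneg h0 W v
    linarith
  -- F2
  have F2 : ∑ v ∈ A, (dg w Aᶜ v - dg w A v) = x + 2 * g - D := by
    rw [sum_sub_distrib]
    have e1 : ∑ v ∈ A, dg w Aᶜ v = ee w A Aᶜ := rfl
    have e2 : ∑ v ∈ A, dg w A v = ee w A A := rfl
    rw [e1, e2, hcA, hiA]; ring
  -- F3
  have F3 : ∀ v ∈ A, 1 ≤ dg w A v → dg w Aᶜ v - dg w A v ≤ x →
      2 * n + 2 * x - 4 * g + D ≤ 2 * dg w Aᶜ v := by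
    intro v hv hd hdx
    have hcut := cut_erase hs hz A hv
    have hin := ee_self_erase hs hz A hv
    have hlt : ee w (A.erase v) (A.erase v) < ee w A A := by rw [hin]; linarith
    have hnot : ¬ (n ^ 2 + h - 2 * g ≤ ee w (A.erase v) (A.erase v)) := by
      intro hc
      have := hmin (A.erase v) (by
        rw [mem_filter, mem_powerset]
        refine ⟨(erase_subset _ _).trans hAA0, hc, ?_⟩
        rw [hcut, hcA]; linarith)
      linarith
    have h5 := (hfail (A.erase v)).resolve_left hnot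
    rw [ee_compl_erase hs hz A hv, hiAc] at h5
    linarith
  -- the sets
  set A1 := A.filter (fun v => 1 ≤ dg w A v) with hA1
  set P := A1.filter (fun v => ¬ (dg w Aᶜ v - dg w A v ≤ x)) with hP
  set B := A1.filter (fun v => dg w Aᶜ v - dg w A v ≤ x) with hB
  have hcard : (B.card : ℤ) + P.card = A1.card := by
    have := card_filter_add_card_filter_not (s := A1) (fun v => dg w Aᶜ v - dg w A v ≤ x)
    rw [← this]; push_cast; ring
  have hA1A : A1 ⊆ A := filter_subset _ _
  have hPA : P ⊆ A := (filter_subset _ _).trans hA1A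
  have hBA : B ⊆ A := (filter_subset _ _).trans hA1A
  have hPc : (P.card : ℤ) * (x + 1) ≤ x + 2 * g := by
    have e1 : (P.card : ℤ) * (x + 1) ≤ ∑ v ∈ P, (dg w Aᶜ v - dg w A v) := by
      rw [← nsmul_eq_mul, ← sum_const]
      refine sum_le_sum fun v hv => ?_
      have := (mem_filter.1 hv).2
      omega
    have e2 : ∑ v ∈ P, (dg w Aᶜ v - dg w A v) ≤ ∑ v ∈ A, (dg w Aᶜ v - dg w A v) :=
      sum_le_sum_of_subset_of_nonneg hPA fun v hv _ => F1' v hv
    linarith
  have hBc : (B.card : ℤ) * (2 * n + 2 * x - 4 * g + D) ≤ 2 * (n ^ 2 + h + x) := by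
    have e1 : (B.card : ℤ) * (2 * n + 2 * x - 4 * g + D) ≤ ∑ v ∈ B, 2 * dg w Aᶜ v := by
      rw [← nsmul_eq_mul, ← sum_const]
      refine sum_le_sum fun v hv => ?_
      have hv1 := mem_filter.1 hv
      have hv2 := mem_filter.1 hv1.1
      exact F3 v hv2.1 hv2.2 hv1.2
    have e2 : ∑ v ∈ B, 2 * dg w Aᶜ v ≤ ∑ v ∈ A, 2 * dg w Aᶜ v :=
      sum_le_sum_of_subset_of_nonneg hBA fun v _ _ => by
        have := dg_nonneg h0 Aᶜ v
        linarith
    have e3 : ∑ v ∈ A, 2 * dg w Aᶜ v = 2 * ee w A Aᶜ := by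
      rw [← mul_sum]; rfl
    rw [e3, hcA] at e2
    linarith
  have hP0 : (0 : ℤ) ≤ P.card := Int.natCast_nonneg _
  have hB0 : (0 : ℤ) ≤ B.card := Int.natCast_nonneg _
  have hA1n : n + 1 ≤ (A1.card : ℤ) := by
    have e1 := inner_le hs hz h0 h1 A
    rw [← hA1] at e1
    by_contra hc
    push Not at hc
    have e2 : (0 : ℤ) ≤ A1.card := Int.natCast_nonneg _
    have e3 : (A1.card : ℤ) * ((A1.card : ℤ) - 1) ≤ n * (n - 1) := by
      have e4 : (A1.card : ℤ) ≤ n := by omega
      have e5 : (0:ℤ) ≤ (n - A1.card) * (n + A1.card - 1) :=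
        mul_nonneg (by linarith) (by linarith)
      linarith
    linarith
  -- Step 2
  have hx2 : x ≤ 2 * g := by
    by_contra hc
    push Not at hc
    have hP1 : (P.card : ℤ) ≤ 1 := by
      by_contra hc2
      push Not at hc2
      have : (0:ℤ) ≤ ((P.card : ℤ) - 2) * (x + 1) := mul_nonneg (by linarith) (by linarith)
      linarith
    have hBn : n ≤ (B.card : ℤ) := by linarith
    have e1 : n * (2 * n + 2 * x - 4 * g + D) ≤ (B.card : ℤ) * (2 * n + 2 * x - 4 * g + D) := by
      apply mul_le_mul_of_nonneg_right hBn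
      linarith
    have e2 : (0:ℤ) ≤ (2 * n - 2) * (x - 2 * g - 1) := mul_nonneg (by linarith) (by linarith)
    have e3 : (0:ℤ) ≤ n * D := mul_nonneg (by linarith) hD0
    linarith
  have hPc2 : (P.card : ℤ) ≤ 4 * g := by
    have : (0:ℤ) ≤ (P.card : ℤ) * x := mul_nonneg hP0 hx0
    linarith
  have hBn : n + 1 - 4 * g ≤ (B.card : ℤ) := by linarith
  -- Step 3
  obtain ⟨v, hvB, hvd⟩ : ∃ v ∈ B, dg w Aᶜ v ≤ n + 4 * g + 1 := by
    by_contra hc
    push Not at hc
    have e1 : (B.card : ℤ) * (n + 4 * g + 2) ≤ ∑ v ∈ B, dg w Aᶜ v := by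
      rw [← nsmul_eq_mul, ← sum_const]
      refine sum_le_sum fun v hv => ?_
      have := hc v hv
      omega
    have e2 : ∑ v ∈ B, dg w Aᶜ v ≤ ∑ v ∈ A, dg w Aᶜ v :=
      sum_le_sum_of_subset_of_nonneg hBA fun v _ _ => dg_nonneg h0 Aᶜ v
    have e3 : ∑ v ∈ A, dg w Aᶜ v = ee w A Aᶜ := rfl
    rw [e3, hcA] at e2
    have e4 : (n + 1 - 4 * g) * (n + 4 * g + 2) ≤ (B.card : ℤ) * (n + 4 * g + 2) :=
      mul_le_mul_of_nonneg_right hBn (by linarith)
    have e5 : (0:ℤ) ≤ n * g := mul_nonneg (by linarith) (by linarith)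
    linarith
  have hvB1 := mem_filter.1 hvB
  have hvB2 := mem_filter.1 hvB1.1
  have hvA : v ∈ A := hvB2.1
  have hvlow := F3 v hvB2.1 hvB2.2 hvB1.2
  have hvdiff := hvB1.2
  set A' := A.erase v with hA'
  set δ := 2 * dg w Aᶜ v - (2 * n + 2 * x - 4 * g + D) with hδ
  have hδ0 : 0 ≤ δ := by rw [hδ]; linarith
  have hδ1 : δ ≤ 12 * g + 2 := by rw [hδ]; linarith
  have hV2 : ee w A'ᶜ A'ᶜ = n ^ 2 + h - 2 * g + δ := by
    rw [hA', ee_compl_erase hs hz A hvA, hiAc, hδ, hnh]; ring
  have hA'i : ee w A' A' ≤ n ^ 2 + h - 2 * g - 2 * n + 4 * g := by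
    rw [hA', ee_self_erase hs hz A hvA, hiA]; linarith
  -- W and A
  have hWA : 2 * ee w A W ≤ 4 * g := by
    have e1 : 2 * ee w A W = ∑ v ∈ A, 2 * dg w W v := by rw [← mul_sum]; rfl
    have e2 : ∑ v ∈ A, 2 * dg w W v ≤ ∑ v ∈ A, (dg w Aᶜ v - dg w A v) := sum_le_sum F1
    linarith
  have hWV2 : W ⊆ A'ᶜ := by
    intro u hu
    rw [mem_compl, hA', mem_erase]
    rintro ⟨_, hu2⟩
    exact (mem_sdiff.1 hu).2 hu2
  -- Step 4
  have key : ∀ U : Finset V, U ⊆ W → 2 * ee w U (A'ᶜ \ U) + ee w U U ≤ δ := by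
    intro U
    induction U using Finset.induction_on with
    | empty => intro _; simp [ee]; exact hδ0
    | insert y U0 hy ih =>
      intro hU
      have hU0 : U0 ⊆ W := (subset_insert _ _).trans hU
      have hyW : y ∈ W := hU (mem_insert_self _ _)
      have ih' := ih hU0
      by_contra hcon
      push Not at hcon
      set U := insert y U0 with hUdef
      have hUV : U ⊆ A'ᶜ := hU.trans hWV2
      have hdA'U : Disjoint A' U := by
        rw [disjoint_left]
        intro z hz1 hz2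
        exact (mem_compl.1 (hUV hz2)) hz1
      -- inner weight of U is small
      have e1 : ee w U U ≤ δ := by
        rw [hUdef, ee_self_insert hs hz U0 hy]
        have e2 : dg w U0 y = ee w U0 {y} := by
          rw [ee_comm hs]; simp [ee]
        have e3 : ee w U0 {y} ≤ ee w U0 (A'ᶜ \ U0) := by
          apply ee_mono_right h0
          rw [singleton_subset_iff, mem_sdiff]
          exact ⟨hWV2 hyW, hy⟩
        rw [e2]; linarith
      have e2 : ee w A' U ≤ ee w A W := by
        have e3 : ee w A' U ≤ ee w A' W := ee_mono_right h0 _ hU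
        have e4 : ee w A' W ≤ ee w A W := by
          rw [hA', ee_erase_left _ _ hvA]
          have := dg_nonneg h0 W v
          linarith
        linarith
      have e3 := inner_union (w := w) hs hdA'U
      have e4 : ee w A'ᶜ A'ᶜ = ee w (A'ᶜ \ U) (A'ᶜ \ U) + 2 * ee w (A'ᶜ \ U) U + ee w U U := by
        have hd : Disjoint (A'ᶜ \ U) U := sdiff_disjoint
        rw [← inner_union hs hd, sdiff_union_of_subset hUV]
      have e5 : (A' ∪ U)ᶜ = A'ᶜ \ U := by
        ext z; simp only [mem_compl, mem_union, mem_sdiff, not_or]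
      have e6 : ee w (A'ᶜ \ U) U = ee w U (A'ᶜ \ U) := ee_comm hs _ _
      rcases hfail (A' ∪ U) with hf | hf
      · rw [e3] at hf
        linarith
      · rw [e5] at hf
        linarith
  have hkey := key W (Subset.refl _)
  -- Step 5
  have e1 : ee w (A ∪ W) A0ᶜ = ee w A A0ᶜ + ee w W A0ᶜ := ee_union_left hWdisj _
  rw [← hA0u] at e1
  have e2 : ee w A Aᶜ = ee w A A0ᶜ + ee w A W := by
    conv_lhs => rw [hAcu]
    exact ee_union_right hdisj2 _
  have e3 : ee w W A0ᶜ ≤ ee w W (A'ᶜ \ W) := by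
    apply ee_mono_right h0
    intro z hz
    rw [mem_sdiff, mem_compl]
    have hz0 := mem_compl.1 hz
    refine ⟨fun hc => hz0 (hAA0 (erase_subset _ _ hc)), fun hc => hz0 (mem_sdiff.1 hc).1⟩
  have e4 := ee_nonneg h0 A W
  have e5 := ee_nonneg h0 W W
  linarith

end Pool.Agent.H377R3.JB
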