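import Pool.Agent.H377R3.JB.Core

set_option autoImplicit false
set_option linter.unusedSectionVars false

namespace Pool.Agent.H377R3.JB

open Finset

/-- adjacency weight -/
def adjw {N : ℕ} (G : SimpleGraph (Fin N)) [DecidableRel G.Adj] (u v : Fin N) : ℤ :=
  if G.Adj u v then 1 else 0

theorem adjw_eq {N : ℕ} (G : SimpleGraph (Fin N)) [DecidableRel G.Adj] (S : Finset (Fin N)) :
    ee (adjw G) S S = 2 * (((univ : Finset (Fin N × Fin N)).filter
      (fun p => p.1 < p.2 ∧ G.Adj p.1 p.2 ∧ p.1 ∈ S ∧ p.2 ∈ S)).card : ℤ) := by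
  have e1 : ee (adjw G) S S = (((univ : Finset (Fin N × Fin N)).filter
      (fun p => G.Adj p.1 p.2 ∧ p.1 ∈ S ∧ p.2 ∈ S)).card : ℤ) := by
    unfold ee dg adjw
    rw [← sum_product', card_filter]
    push_cast
    rw [← sum_filter_add_sum_filter_not (univ : Finset (Fin N × Fin N))
      (fun p => p.1 ∈ S ∧ p.2 ∈ S)]
    have e2 : ∑ p ∈ (univ : Finset (Fin N × Fin N)).filter (fun p => ¬ (p.1 ∈ S ∧ p.2 ∈ S)),
        (if G.Adj p.1 p.2 ∧ p.1 ∈ S ∧ p.2 ∈ S then (1 : ℤ) else 0) = 0 := by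
      apply sum_eq_zero
      intro p hp
      rw [mem_filter] at hp
      rw [if_neg]
      exact fun h => hp.2 h.2
    rw [e2, add_zero]
    have e3 : (univ : Finset (Fin N × Fin N)).filter (fun p => p.1 ∈ S ∧ p.2 ∈ S) = S ×ˢ S := by
      ext p; simp
    rw [e3]
    refine sum_congr rfl fun p hp => ?_
    rw [mem_product] at hp
    simp [hp.1, hp.2]
  rw [e1]
  have e4 : ((univ : Finset (Fin N × Fin N)).filter
      (fun p => G.Adj p.1 p.2 ∧ p.1 ∈ S ∧ p.2 ∈ S)) =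
      ((univ : Finset (Fin N × Fin N)).filter
      (fun p => p.1 < p.2 ∧ G.Adj p.1 p.2 ∧ p.1 ∈ S ∧ p.2 ∈ S)) ∪
      ((univ : Finset (Fin N × Fin N)).filter
      (fun p => p.2 < p.1 ∧ G.Adj p.1 p.2 ∧ p.1 ∈ S ∧ p.2 ∈ S)) := by
    ext p
    simp only [mem_filter, mem_univ, true_and, mem_union]
    constructor
    · intro h
      rcases lt_trichotomy p.1 p.2 with h1 | h1 | h1
      · exact Or.inl ⟨h1, h⟩
      · exact absurd (h1 ▸ h.1) (G.loopless.irrefl _)
      · exact Or.inr ⟨h1, h⟩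
    · rintro (h | h)
      · exact h.2
      · exact h.2
  have e5 : Disjoint ((univ : Finset (Fin N × Fin N)).filter
      (fun p => p.1 < p.2 ∧ G.Adj p.1 p.2 ∧ p.1 ∈ S ∧ p.2 ∈ S))
      ((univ : Finset (Fin N × Fin N)).filter
      (fun p => p.2 < p.1 ∧ G.Adj p.1 p.2 ∧ p.1 ∈ S ∧ p.2 ∈ S)) := by
    rw [disjoint_left]
    intro p hp hq
    rw [mem_filter] at hp hq
    exact lt_asymm hp.2.1 hq.2.1
  have e6 : ((univ : Finset (Fin N × Fin N)).filter
      (fun p => p.2 < p.1 ∧ G.Adj p.1 p.2 ∧ p.1 ∈ S ∧ p.2 ∈ S)).card =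
      ((univ : Finset (Fin N × Fin N)).filter
      (fun p => p.1 < p.2 ∧ G.Adj p.1 p.2 ∧ p.1 ∈ S ∧ p.2 ∈ S)).card := by
    refine card_nbij' Prod.swap Prod.swap ?_ ?_ ?_ ?_
    · intro p hp
      simp only [coe_filter, mem_univ, true_and, Set.mem_setOf_eq, Prod.fst_swap,
        Prod.snd_swap] at hp ⊢
      exact ⟨hp.1, hp.2.1.symm, hp.2.2.2, hp.2.2.1⟩
    · intro p hp
      simp only [coe_filter, mem_univ, true_and, Set.mem_setOf_eq, Prod.fst_swap,
        Prod.snd_swap] at hp ⊢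
      exact ⟨hp.1, hp.2.1.symm, hp.2.2.2, hp.2.2.1⟩
    · intro p _; simp
    · intro p _; simp
  rw [e4, card_union_of_disjoint e5, e6]
  push_cast; ring

theorem En_cut {V : Type} [Fintype V] [DecidableEq V] {w : V → V → ℤ}
    (hs : ∀ u v, w u v = w v u) (x : V → ℤ) (hx : ∀ v, x v = 1 ∨ x v = -1) :
    H439R2.MC.En w x = ee w univ univ - 4 * ee w (univ.filter (fun v => x v = 1))
      (univ.filter (fun v => x v = 1))ᶜ := by
  set S := univ.filter (fun v => x v = 1) with hS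
  have hx1 : ∀ v ∈ S, x v = 1 := fun v hv => (mem_filter.1 hv).2
  have hx2 : ∀ v ∈ Sᶜ, x v = -1 := by
    intro v hv
    rcases hx v with h | h
    · have hvS : v ∈ S := by rw [hS, mem_filter]; exact ⟨mem_univ _, h⟩
      exact absurd hvS (mem_compl.1 hv)
    · exact h
  have hd : Disjoint S Sᶜ := disjoint_compl_right
  have hu : (univ : Finset V) = S ∪ Sᶜ := by rw [union_compl]
  have e1 : ∀ u, ∑ v, w u v * (x u * x v) = x u * (dg w S u - dg w Sᶜ u) := by
    intro u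
    unfold dg
    rw [hu, sum_union hd, mul_sub, mul_sum, mul_sum]
    have a1 : ∑ v ∈ S, w u v * (x u * x v) = ∑ v ∈ S, x u * w u v :=
      sum_congr rfl fun v hv => by rw [hx1 v hv]; ring
    have a2 : ∑ v ∈ Sᶜ, w u v * (x u * x v) = - ∑ v ∈ Sᶜ, x u * w u v := by
      rw [← sum_neg_distrib]
      exact sum_congr rfl fun v hv => by rw [hx2 v hv]; ring
    rw [a1, a2]; ring
  have e2 : H439R2.MC.En w x = ∑ u, x u * (dg w S u - dg w Sᶜ u) := by
    unfold H439R2.MC.En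
    exact sum_congr rfl fun u _ => e1 u
  have e3 : ∑ u, x u * (dg w S u - dg w Sᶜ u) =
      ee w S S - ee w S Sᶜ - (ee w Sᶜ S - ee w Sᶜ Sᶜ) := by
    conv_lhs => rw [hu]
    rw [sum_union hd]
    have a1 : ∑ u ∈ S, x u * (dg w S u - dg w Sᶜ u) = ee w S S - ee w S Sᶜ := by
      unfold ee
      rw [← sum_sub_distrib]
      exact sum_congr rfl fun v hv => by rw [hx1 v hv]; ring
    have a2 : ∑ u ∈ Sᶜ, x u * (dg w S u - dg w Sᶜ u) = -(ee w Sᶜ S - ee w Sᶜ Sᶜ) := by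
      unfold ee
      rw [← sum_sub_distrib, ← sum_neg_distrib]
      exact sum_congr rfl fun v hv => by rw [hx2 v hv]; ring
    rw [a1, a2]; ring
  rw [e2, e3, total hs S, ee_comm hs Sᶜ S]
  ring

/-- For `n = 1600 g²` every graph with `2 n²` edges has a bipartition each class of which spans
fewer than `n²/2 + n/4 - g` edges. -/
theorem judicious (g n : ℕ) (hg : 1 ≤ g) (hn : n = 1600 * g ^ 2) (N : ℕ)
    (G : SimpleGraph (Fin N)) [DecidableRel G.Adj]
    (hm : ((univ : Finset (Fin N × Fin N)).filter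
      (fun p => p.1 < p.2 ∧ G.Adj p.1 p.2)).card = 2 * n ^ 2) :
    ∃ S : Finset (Fin N), ee (adjw G) S S < (n : ℤ) ^ 2 + 800 * g ^ 2 - 2 * g ∧
      ee (adjw G) Sᶜ Sᶜ < (n : ℤ) ^ 2 + 800 * g ^ 2 - 2 * g := by
  by_contra hcon
  have hs : ∀ u v, adjw G u v = adjw G v u := by
    intro u v; unfold adjw; simp only [G.adj_comm]
  have hz : ∀ u, adjw G u u = 0 := by intro u; unfold adjw; simp
  have h0 : ∀ u v, 0 ≤ adjw G u v := by
    intro u v; unfold adjw; split_ifs <;> norm_num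
  have h1 : ∀ u v, adjw G u v ≤ 1 := by
    intro u v; unfold adjw; split_ifs <;> norm_num
  have ht : ee (adjw G) univ univ = 4 * (n : ℤ) ^ 2 := by
    rw [adjw_eq]
    have : ((univ : Finset (Fin N × Fin N)).filter
      (fun p => p.1 < p.2 ∧ G.Adj p.1 p.2 ∧ p.1 ∈ (univ : Finset (Fin N)) ∧
        p.2 ∈ (univ : Finset (Fin N)))) = ((univ : Finset (Fin N × Fin N)).filter
      (fun p => p.1 < p.2 ∧ G.Adj p.1 p.2)) := by
      ext p; simp
    rw [this, hm]
    push_cast; ring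
  obtain ⟨A0, -, hA0⟩ := exists_max_image (univ : Finset (Finset (Fin N)))
    (fun A => ee (adjw G) A Aᶜ) ⟨∅, mem_univ _⟩
  have hmax : ∀ S : Finset (Fin N), ee (adjw G) S Sᶜ ≤ ee (adjw G) A0 A0ᶜ :=
    fun S => hA0 S (mem_univ _)
  obtain ⟨x, hx, hE⟩ := H439R2.MC.main FF FF_zero FF_P (2 * n ^ 2) (Fin N) (adjw G)
    ⟨hs, hz⟩ (by
      have : H439R2.MC.tot (adjw G) = ee (adjw G) univ univ := rfl
      rw [this, ht]; push_cast; linarith)
  rw [En_cut hs x hx] at hE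
  have htt : H439R2.MC.tot (adjw G) = ee (adjw G) univ univ := rfl
  rw [htt] at hE
  have hcut := hmax (univ.filter (fun v => x v = 1))
  have hFF := FF_bound g n hg hn
  have hFF' : 2 * (n : ℤ) ^ 2 + n + 16 * g + 4 ≤ 2 * (FF (2 * n ^ 2) : ℤ) := by exact_mod_cast hFF
  have hn' : (n : ℤ) = 1600 * (g : ℤ) ^ 2 := by exact_mod_cast hn
  have hg' : (1 : ℤ) ≤ g := by exact_mod_cast hg
  have hc := core (adjw G) hs hz h0 h1 (n : ℤ) (800 * (g : ℤ) ^ 2) g (by linarith) hg'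
    (by nlinarith) ht (by
      intro S
      by_contra h
      push Not at h
      exact hcon ⟨S, h.1, h.2⟩) A0 hmax (by linarith)
  linarith

end Pool.Agent.H377R3.JB
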